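import Mathlib
import Pool.Agent.H34.Berge

namespace Pool.Agent.Results.MP_a9a483_co.DoubleSplit
open Pool.Agent.H34.BergeDefs

/-- A Berge graph on 12 vertices such that neither it nor its complement has an even pair, is the
line graph of a bipartite graph, or has a 2-join. -/
theorem result : ∃ G : SimpleGraph (Fin 12), Berge G ∧
    (∀ x y, ¬ EvenPair G x y) ∧ (∀ x y, ¬ EvenPair Gᶜ x y) ∧
    ¬ IsBipLine G ∧ ¬ IsBipLine Gᶜ ∧ ¬ HasTwoJoin G ∧ ¬ HasTwoJoin Gᶜ :=
  ⟨_, Pool.Agent.H34.Berge.main⟩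

end Pool.Agent.Results.MP_a9a483_co.DoubleSplit
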